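import Mathlib
import Pool.Agent.Q145.GC.Spec

/-! Project GC of helper145: the law of the conditional mean. -/

set_option autoImplicit false

namespace Pool.Agent.Q121.GC

open Finset MeasureTheory ProbabilityTheory Filter Topology Pool.Agent.Q145.GC

lemma log_quad (y : ℝ) (h0 : 0 ≤ y) (h1 : y ≤ 1 / 2) : |Real.log (1 - y) + y + y ^ 2 / 2| ≤ 2 * y ^ 3 := by
  have h := Real.abs_log_sub_add_sum_range_le (x := y) (by rw [abs_of_nonneg h0]; linarith) 2
  rw [abs_of_nonneg h0, Finset.sum_range_succ, Finset.sum_range_succ, Finset.sum_range_zero] at h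
  have e : Real.log (1 - y) + y + y ^ 2 / 2 =
      0 + y ^ (0 + 1) / ((0 : ℕ) + 1 : ℝ) + y ^ (1 + 1) / ((1 : ℕ) + 1 : ℝ) + Real.log (1 - y) := by
    push_cast; ring
  rw [e]
  refine h.trans ?_
  rw [div_le_iff₀ (by linarith)]
  have h3 : 0 ≤ y ^ 3 := by positivity
  have h5 : 2 * y ^ 3 * (1 - y) = y ^ (2 + 1) + y ^ 3 * (1 - 2 * y) := by ring
  rw [h5]
  have h6 : 0 ≤ y ^ 3 * (1 - 2 * y) := mul_nonneg h3 (by linarith)
  linarith

lemma log_lip (a b m : ℝ) (hm : 0 < m) (ha : m ≤ a) (hb : m ≤ b) : |Real.log a - Real.log b| ≤ |a - b| / m := by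
  have key : ∀ x y : ℝ, m ≤ x → m ≤ y → Real.log x - Real.log y ≤ |x - y| / m := by
    intro x y hx hy
    have hx0 : 0 < x := hm.trans_le hx
    have hy0 : 0 < y := hm.trans_le hy
    rw [← Real.log_div hx0.ne' hy0.ne']
    refine (Real.log_le_sub_one_of_pos (div_pos hx0 hy0)).trans ?_
    have e : x / y - 1 = (x - y) / y := by field_simp
    rw [e]
    calc (x - y) / y ≤ |x - y| / y := by gcongr; exact le_abs_self _
      _ ≤ |x - y| / m := by gcongr
  rw [abs_le]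
  constructor
  · have := key b a hb ha
    rw [abs_sub_comm] at this
    linarith
  · exact key a b ha hb

/-- the constant -/
noncomputable def CC (β S A : ℝ) : ℝ := 2 * β ^ 3 * S ^ 3 + 2 * S ^ 3 + A + S ^ 2 * β * A / 2 + S * β + 2

lemma one_n {K : ℕ} (β ρ A S η θ x : ℝ) (u v : Fin K → ℝ)
    (hv : ∀ i, v i = 0 ∨ v i = 1) (hβ : 1 ≤ β) (hρ : 0 ≤ ρ) (hη : 0 < η) (hη1 : η ≤ 1) (hK : 1 / η ≤ K) (hθ : 0 ≤ θ)
    (hS : S = √ρ + 1) (hs : |θ * √(K : ℝ) - √ρ| ≤ η)
    (hx : x = -(β / √(K : ℝ)) * ∑ i, (v i - 1 / β)) (hA : |x| ≤ A)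
    (hu : ∀ i, K * |u i - θ * β * v i| ≤ η) (hsm : S * β * √η ≤ 1 / 8) :
    (∀ i, 1 / 2 ≤ 1 - u i) ∧ θ ≤ 1 / 2 ∧
    |∑ i, Real.log (1 - u i) - K * Real.log (1 - θ) - (√ρ * x - ρ * (β - 1) / 2)| ≤ CC β S A * √η := by
  set q := √η with hq
  have hq0 : 0 < q := Real.sqrt_pos.2 hη
  have hqq : q * q = η := Real.mul_self_sqrt hη.le
  have hq1 : q ≤ 1 := by
    rw [hq]
    calc √η ≤ √1 := Real.sqrt_le_sqrt hη1
      _ = 1 := Real.sqrt_one
  have hηq : η ≤ q := by nlinarith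
  have hK0 : (0 : ℝ) < K := lt_of_lt_of_le (by positivity) hK
  set r := √(K : ℝ) with hr
  have hr0 : 0 < r := Real.sqrt_pos.2 hK0
  have hrr : r * r = K := Real.mul_self_sqrt hK0.le
  have hrq : 1 ≤ r * q := by
    have h1 : 1 ≤ (r * q) * (r * q) := by
      have : (r * q) * (r * q) = K * η := by rw [← hrr, ← hqq]; ring
      rw [this]
      rwa [div_le_iff₀ hη] at hK
    have h2 : 0 < r * q := mul_pos hr0 hq0
    by_contra h
    push Not at h
    nlinarith
  have hrinv : 1 / r ≤ q := by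
    rw [div_le_iff₀ hr0]; linarith
  set s := θ * r with hsdef
  have hs0 : 0 ≤ s := mul_nonneg hθ hr0.le
  have hρ0 : 0 ≤ √ρ := Real.sqrt_nonneg _
  have hρρ : √ρ * √ρ = ρ := Real.mul_self_sqrt hρ
  have hS1 : 1 ≤ S := by rw [hS]; linarith
  have hsS : s ≤ S := by
    have := (abs_le.1 hs).2
    rw [hS]; linarith
  have hθs : θ = s / r := by rw [hsdef]; field_simp
  have hθq : θ ≤ S * q := by
    rw [hθs]
    calc s / r = s * (1 / r) := by ring
      _ ≤ S * q := by gcongr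
  have hθβ : θ * β ≤ 1 / 8 := by
    calc θ * β ≤ (S * q) * β := by gcongr
      _ = S * β * q := by ring
      _ ≤ 1 / 8 := hsm
  have hq8 : q ≤ 1 / 8 := by
    have h1 : 1 * 1 * q ≤ S * β * q := by gcongr
    linarith
  have hη64 : η ≤ 1 / 64 := by nlinarith
  have hK1 : (1 : ℝ) ≤ K := by
    refine le_trans ?_ hK
    rw [le_div_iff₀ hη]; linarith
  have hui : ∀ i, |u i - θ * β * v i| ≤ η / K := by
    intro i
    rw [le_div_iff₀ hK0]
    have := hu i
    linarith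
  have hηK : η / K ≤ 1 / 64 := by
    rw [div_le_iff₀ hK0]
    nlinarith
  have hvi : ∀ i, 0 ≤ v i ∧ v i ≤ 1 := by
    intro i
    rcases hv i with h | h <;> rw [h] <;> norm_num
  have hθβ0 : 0 ≤ θ * β := by positivity
  have hθv : ∀ i, 0 ≤ θ * β * v i ∧ θ * β * v i ≤ 1 / 8 := by
    intro i
    have h1 := hvi i
    refine ⟨mul_nonneg hθβ0 h1.1, ?_⟩
    nlinarith
  have hhalf : ∀ i, 1 / 2 ≤ 1 - u i := by
    intro i
    have h1 := abs_le.1 (hui i)
    have h2 := hθv i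
    linarith
  have hθ12 : θ ≤ 1 / 2 := by nlinarith
  refine ⟨hhalf, hθ12, ?_⟩
  -- the sum of the logarithms
  have hT6 : |∑ i, Real.log (1 - u i) - ∑ i, Real.log (1 - θ * β * v i)| ≤ 2 * q := by
    rw [← Finset.sum_sub_distrib]
    refine (Finset.abs_sum_le_sum_abs _ _).trans ?_
    have h1 : ∀ i ∈ (univ : Finset (Fin K)), |Real.log (1 - u i) - Real.log (1 - θ * β * v i)| ≤ 2 * η / K := by
      intro i _
      have h2 := log_lip (1 - u i) (1 - θ * β * v i) (1 / 2) (by norm_num) (hhalf i) (by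
        have := hθv i
        linarith)
      refine h2.trans ?_
      have h3 : |1 - u i - (1 - θ * β * v i)| = |u i - θ * β * v i| := by
        rw [show 1 - u i - (1 - θ * β * v i) = -(u i - θ * β * v i) by ring, abs_neg]
      rw [h3]
      have := hui i
      have e : 2 * η / K = (η / K) / (1 / 2) := by field_simp
      rw [e]
      gcongr
    refine (Finset.sum_le_sum h1).trans ?_
    rw [Finset.sum_const, Finset.card_univ, Fintype.card_fin, nsmul_eq_mul]
    have e : (K : ℝ) * (2 * η / K) = 2 * η := by field_simp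
    rw [e]
    linarith
  have hsumv : ∑ i, Real.log (1 - θ * β * v i) = (∑ i, v i) * Real.log (1 - θ * β) := by
    rw [Finset.sum_mul]
    refine Finset.sum_congr rfl fun i _ => ?_
    rcases hv i with h | h <;> rw [h] <;> simp
  set N := ∑ i, v i with hN
  have hN0 : 0 ≤ N := Finset.sum_nonneg fun i _ => (hvi i).1
  have hNK : N ≤ K := by
    have : N ≤ ∑ _i : Fin K, (1 : ℝ) := Finset.sum_le_sum fun i _ => (hvi i).2
    simpa using this
  have hβ0 : 0 < β := by linarith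
  have hNx : N * β = K - r * x := by
    have h1 : ∑ i, (v i - 1 / β) = N - K / β := by
      rw [Finset.sum_sub_distrib, Finset.sum_const, Finset.card_univ, Fintype.card_fin, nsmul_eq_mul]
      ring
    rw [hx, h1]
    field_simp
    ring
  have he1 := log_quad (θ * β) hθβ0 (by linarith)
  have he2 := log_quad θ hθ hθ12
  set e1 := Real.log (1 - θ * β) + θ * β + (θ * β) ^ 2 / 2 with he1d
  set e2 := Real.log (1 - θ) + θ + θ ^ 2 / 2 with he2d
  have hKθ : K * θ ^ 3 ≤ S ^ 3 * q := by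
    have h1 : K * θ ^ 3 = s ^ 3 * (1 / r) := by
      rw [hθs, ← hrr]; field_simp
    rw [h1]
    gcongr
  have hS0 : 0 ≤ S := by linarith
  have hA0 : 0 ≤ A := (abs_nonneg x).trans hA
  have hT1 : |N * e1| ≤ 2 * β ^ 3 * S ^ 3 * q := by
    rw [abs_mul, abs_of_nonneg hN0]
    calc N * |e1| ≤ K * (2 * (θ * β) ^ 3) := by gcongr
      _ = 2 * β ^ 3 * (K * θ ^ 3) := by ring
      _ ≤ 2 * β ^ 3 * (S ^ 3 * q) := by gcongr
      _ = _ := by ring
  have hT2 : |K * e2| ≤ 2 * S ^ 3 * q := by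
    rw [abs_mul, abs_of_nonneg hK0.le]
    calc K * |e2| ≤ K * (2 * θ ^ 3) := by gcongr
      _ = 2 * (K * θ ^ 3) := by ring
      _ ≤ 2 * (S ^ 3 * q) := by gcongr
      _ = _ := by ring
  have hT3 : |(s - √ρ) * x| ≤ A * q := by
    rw [abs_mul]
    calc |s - √ρ| * |x| ≤ η * A := by gcongr
      _ ≤ q * A := by gcongr
      _ = _ := by ring
  have hT4 : |r * θ ^ 2 * β * x / 2| ≤ S ^ 2 * β * A / 2 * q := by
    have h1 : r * θ ^ 2 * β * x / 2 = (s ^ 2 * β / 2 * (1 / r)) * x := by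
      rw [hθs]; field_simp
    rw [h1, abs_mul, abs_of_nonneg (by positivity)]
    calc s ^ 2 * β / 2 * (1 / r) * |x| ≤ S ^ 2 * β / 2 * q * A := by gcongr
      _ = _ := by ring
  have hT5 : |(K * θ ^ 2 - ρ) * (β - 1) / 2| ≤ S * β * q := by
    have h1 : K * θ ^ 2 - ρ = (s - √ρ) * (s + √ρ) := by
      have : K * θ ^ 2 = s * s := by rw [hsdef, ← hrr]; ring
      rw [this]
      linear_combination hρρ
    have h2 : (K * θ ^ 2 - ρ) * (β - 1) / 2 = (s - √ρ) * ((s + √ρ) * ((β - 1) / 2)) := by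
      rw [h1]; ring
    have h3 : 0 ≤ (s + √ρ) * ((β - 1) / 2) := by
      have : 0 ≤ β - 1 := by linarith
      positivity
    rw [h2, abs_mul, abs_of_nonneg h3]
    have h4 : s + √ρ ≤ 2 * S := by rw [hS] at hsS ⊢; linarith
    have h5 : (s + √ρ) * ((β - 1) / 2) ≤ (2 * S) * (β / 2) := by
      have : 0 ≤ β - 1 := by linarith
      gcongr
      linarith
    calc |s - √ρ| * ((s + √ρ) * ((β - 1) / 2)) ≤ q * ((2 * S) * (β / 2)) := by
          have : |s - √ρ| ≤ q := hs.trans hηq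
          gcongr
      _ = _ := by ring
  have hmain : ∑ i, Real.log (1 - u i) - K * Real.log (1 - θ) - (√ρ * x - ρ * (β - 1) / 2) =
      (∑ i, Real.log (1 - u i) - ∑ i, Real.log (1 - θ * β * v i)) + N * e1 - K * e2 + (s - √ρ) * x
        + r * θ ^ 2 * β * x / 2 - (K * θ ^ 2 - ρ) * (β - 1) / 2 := by
    rw [hsumv, he1d, he2d, hsdef]
    linear_combination (-(θ + θ ^ 2 * β / 2)) * hNx
  rw [hmain]
  have hCC : CC β S A * q = 2 * q + 2 * β ^ 3 * S ^ 3 * q + 2 * S ^ 3 * q + A * q + S ^ 2 * β * A / 2 * q + S * β * q := by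
    unfold CC
    ring
  rw [hCC]
  have g1 := abs_le.1 hT1
  have g2 := abs_le.1 hT2
  have g3 := abs_le.1 hT3
  have g4 := abs_le.1 hT4
  have g5 := abs_le.1 hT5
  have g6 := abs_le.1 hT6
  rw [abs_le]
  constructor
  · linarith [g1.1, g2.2, g3.1, g4.1, g5.2, g6.1]
  · linarith [g1.2, g2.1, g3.2, g4.2, g5.1, g6.2]

end Pool.Agent.Q121.GC
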