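import Mathlib
import Pool.Agent.Q145.GC.Spec
import Pool.Agent.Q121.GC.Asy

/-! Project GC of helper145: the law of the conditional mean. -/

set_option autoImplicit false

namespace Pool.Agent.Q121.GC

open Finset MeasureTheory ProbabilityTheory Filter Topology Pool.Agent.Q145.GC

lemma bta_one (W : ℕ) [NeZero W] : 1 ≤ bta W := by
  have hW : 0 < W := Nat.pos_of_ne_zero (NeZero.ne W)
  unfold bta
  rw [le_div_iff₀ (by exact_mod_cast Nat.totient_pos.2 hW), one_mul]
  exact_mod_cast Nat.totient_le W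

lemma un_cases {W : ℕ} (c : ZMod W) : un c = 0 ∨ un c = 1 := by
  unfold un
  split_ifs
  · right; rfl
  · left; rfl

/-- the constant of the comparison -/
noncomputable def DD (W : ℕ) (ρ lam A : ℝ) : ℝ :=
  (lam + W) * (Real.exp (√ρ * A) * (2 * CC (bta W) (√ρ + 1) A)) + W * Real.exp (√ρ * A)

lemma cm_close (W : ℕ) [NeZero W] (ρ lam A η : ℝ) (hρ : 0 ≤ ρ) (_hlam : 0 < lam) (hη : 0 < η) (hη1 : η ≤ 1)
    (hsm : (√ρ + 1) * bta W * √η ≤ 1 / 8) (hsm2 : CC (bta W) (√ρ + 1) A * √η ≤ 1)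
    (K : ℕ) (V : Finset ℕ) (θ : ℕ → ℝ) (u : ℕ → ZMod W → ℝ) (hK : 1 / η ≤ K)
    (_hu1 : ∀ n ∈ V, ∀ t, 0 ≤ u n t ∧ u n t ≤ 1) (hθ : ∀ n ∈ V, 0 ≤ θ n ∧ θ n ≤ 1)
    (hu : ∀ n ∈ V, ∀ t, K * |u n t - θ n * bta W * un ((n : ZMod W) + t)| ≤ η)
    (hs : ∀ n ∈ V, |θ n * √(K : ℝ) - √ρ| ≤ η)
    (hc : ∀ c : ZMod W, |∑ n ∈ V.filter (fun n : ℕ => (n : ZMod W) = c), (1 - θ n) ^ K - lam / W| ≤ η)
    (t : Fin K → ZMod W) (hA : ∀ c : ZMod W, |xv W t c| ≤ A) :
    |cm V u t - lam * mass ρ W (xv W t)| ≤ DD W ρ lam A * √η := by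
  have hW : 0 < W := Nat.pos_of_ne_zero (NeZero.ne W)
  have hWr : (0 : ℝ) < W := by exact_mod_cast hW
  have hβ := bta_one W
  have hqq : √η * √η = η := Real.mul_self_sqrt hη.le
  have hq0 : 0 < √η := Real.sqrt_pos.2 hη
  have hq1 : √η ≤ 1 := by
    calc √η ≤ √1 := Real.sqrt_le_sqrt hη1
      _ = 1 := Real.sqrt_one
  have hηq : η ≤ √η := by nlinarith
  set E : ZMod W → ℝ := fun c => Real.exp (√ρ * xv W t c - ρ * (bta W - 1) / 2) with hE
  set M := Real.exp (√ρ * A) with hM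
  have hEM : ∀ c, E c ≤ M := by
    intro c
    apply Real.exp_le_exp.2
    have h1 : √ρ * xv W t c ≤ √ρ * A :=
      mul_le_mul_of_nonneg_left ((le_abs_self _).trans (hA c)) (Real.sqrt_nonneg _)
    have h2 : 0 ≤ ρ * (bta W - 1) / 2 := by
      have : 0 ≤ bta W - 1 := by linarith
      positivity
    linarith
  have hE0 : ∀ c, 0 < E c := fun c => Real.exp_pos _
  have hM0 : 0 < M := Real.exp_pos _
  -- the individual terms
  have hterm : ∀ n ∈ V, |∏ i, (1 - u n (t i)) - (1 - θ n) ^ K * E (n : ZMod W)| ≤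
      (1 - θ n) ^ K * (M * (2 * (CC (bta W) (√ρ + 1) A * √η))) := by
    intro n hn
    have h1 := one_n (bta W) ρ A (√ρ + 1) η (θ n) (xv W t (n : ZMod W)) (fun i => u n (t i))
      (fun i => un ((n : ZMod W) + t i)) (fun i => un_cases _) hβ hρ hη hη1 hK (hθ n hn).1 rfl (hs n hn)
      rfl (hA _) (fun i => hu n hn (t i)) hsm
    obtain ⟨h2, h3, h4⟩ := h1
    have h5 : 0 < 1 - θ n := by linarith
    have h6 : ∏ i, (1 - u n (t i)) = Real.exp (∑ i, Real.log (1 - u n (t i))) := by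
      rw [Real.exp_sum]
      refine Finset.prod_congr rfl fun i _ => ?_
      rw [Real.exp_log]
      have := h2 i
      linarith
    have h7 : (1 - θ n) ^ K = Real.exp (K * Real.log (1 - θ n)) := by
      rw [← Real.exp_log (pow_pos h5 K), Real.log_pow]
    set δ := ∑ i, Real.log (1 - u n (t i)) - K * Real.log (1 - θ n) -
      (√ρ * xv W t (n : ZMod W) - ρ * (bta W - 1) / 2) with hδ
    have h8 : Real.exp (∑ i, Real.log (1 - u n (t i))) = (1 - θ n) ^ K * E (n : ZMod W) * Real.exp δ := by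
      rw [h7, hE, ← Real.exp_add, ← Real.exp_add, hδ]
      congr 1
      ring
    rw [h6, h8]
    have h9 : (1 - θ n) ^ K * E (n : ZMod W) * Real.exp δ - (1 - θ n) ^ K * E (n : ZMod W) =
        (1 - θ n) ^ K * (E (n : ZMod W) * (Real.exp δ - 1)) := by ring
    have h10 : 0 ≤ (1 - θ n) ^ K := by positivity
    rw [h9, abs_mul, abs_of_nonneg h10, abs_mul, abs_of_pos (hE0 _)]
    have h11 : |Real.exp δ - 1| ≤ 2 * |δ| := Real.abs_exp_sub_one_le (h4.trans hsm2)
    have h12 : |δ| ≤ CC (bta W) (√ρ + 1) A * √η := h4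
    have h13 := hEM (n : ZMod W)
    gcongr
    exact h11.trans (by linarith)
  -- fibres
  have hfib : ∀ F : ZMod W → ℝ, ∑ n ∈ V, (1 - θ n) ^ K * F (n : ZMod W) =
      ∑ c : ZMod W, F c * ∑ n ∈ V.filter (fun n : ℕ => (n : ZMod W) = c), (1 - θ n) ^ K := by
    intro F
    rw [← Finset.sum_fiberwise V (fun n : ℕ => (n : ZMod W))]
    refine Finset.sum_congr rfl fun c _ => ?_
    rw [Finset.mul_sum]
    refine Finset.sum_congr rfl fun n hn => ?_
    rw [(Finset.mem_filter.1 hn).2, mul_comm]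
  have htot : ∑ n ∈ V, (1 - θ n) ^ K ≤ lam + W := by
    have h1 := hfib (fun _ => 1)
    simp only [mul_one, one_mul] at h1
    rw [h1]
    have h2 : ∀ c ∈ (univ : Finset (ZMod W)), ∑ n ∈ V.filter (fun n : ℕ => (n : ZMod W) = c), (1 - θ n) ^ K ≤
        lam / W + 1 := by
      intro c _
      have := (abs_le.1 (hc c)).2
      linarith
    refine (Finset.sum_le_sum h2).trans ?_
    rw [Finset.sum_const, Finset.card_univ, ZMod.card, nsmul_eq_mul]
    have : (W : ℝ) * (lam / W + 1) = lam + W := by field_simp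
    rw [this]
  have hA0 : 0 ≤ A := (abs_nonneg _).trans (hA 0)
  have hCC0 : 0 ≤ CC (bta W) (√ρ + 1) A := by
    unfold CC
    have := Real.sqrt_nonneg ρ
    have : 0 ≤ bta W := by linarith
    positivity
  have h1 : |cm V u t - ∑ n ∈ V, (1 - θ n) ^ K * E (n : ZMod W)| ≤
      (lam + W) * (M * (2 * (CC (bta W) (√ρ + 1) A * √η))) := by
    unfold cm
    rw [← Finset.sum_sub_distrib]
    refine (Finset.abs_sum_le_sum_abs _ _).trans ((Finset.sum_le_sum hterm).trans ?_)
    rw [← Finset.sum_mul]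
    gcongr
  have h2 : |∑ n ∈ V, (1 - θ n) ^ K * E (n : ZMod W) - lam * mass ρ W (xv W t)| ≤ W * M * √η := by
    have e1 : lam * mass ρ W (xv W t) = ∑ c : ZMod W, E c * (lam / W) := by
      unfold mass
      rw [← Finset.sum_mul, hE]
      ring
    rw [e1, hfib, ← Finset.sum_sub_distrib]
    refine (Finset.abs_sum_le_sum_abs _ _).trans ?_
    have h3 : ∀ c ∈ (univ : Finset (ZMod W)),
        |E c * ∑ n ∈ V.filter (fun n : ℕ => (n : ZMod W) = c), (1 - θ n) ^ K - E c * (lam / W)| ≤ M * √η := by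
      intro c _
      rw [← mul_sub, abs_mul, abs_of_pos (hE0 c)]
      have := hEM c
      have h4 := (hc c).trans hηq
      gcongr
    refine (Finset.sum_le_sum h3).trans ?_
    rw [Finset.sum_const, Finset.card_univ, ZMod.card, nsmul_eq_mul]
    linarith
  have h3 : cm V u t - lam * mass ρ W (xv W t) =
      (cm V u t - ∑ n ∈ V, (1 - θ n) ^ K * E (n : ZMod W)) +
      (∑ n ∈ V, (1 - θ n) ^ K * E (n : ZMod W) - lam * mass ρ W (xv W t)) := by ring
  rw [h3]
  refine (abs_add_le _ _).trans ((add_le_add h1 h2).trans (le_of_eq ?_))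
  unfold DD
  ring

lemma mass_cont (ρ : ℝ) (W : ℕ) [NeZero W] : Continuous (mass ρ W) := by
  unfold mass
  fun_prop

lemma mass_pos (ρ : ℝ) (W : ℕ) [NeZero W] (x : EuclideanSpace ℝ (ZMod W)) : 0 < mass ρ W x := by
  have hW : 0 < W := Nat.pos_of_ne_zero (NeZero.ne W)
  unfold mass
  apply div_pos _ (by exact_mod_cast hW)
  exact Finset.sum_pos (fun c _ => Real.exp_pos _) ⟨0, mem_univ _⟩

/-- the law of the conditional mean -/
theorem asy (_h1 : S_Psd) (h2 : S_Clt) : S_Asy := by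
  intro W _ ρ lam G hρ hlam g hgG hgL ε hε
  have hG : 0 ≤ G := (abs_nonneg _).trans (hgG 0 le_rfl)
  -- the continuous function of the vector
  have hg_cont : ContinuousOn g (Set.Ici 0) := by
    have : LipschitzOnWith ⟨G, hG⟩ g (Set.Ici 0) := by
      apply LipschitzOnWith.of_dist_le_mul
      intro x hx y hy
      exact hgL x y hx hy
    exact this.continuousOn
  set f₂ : EuclideanSpace ℝ (ZMod W) → ℝ := fun x => g (lam * mass ρ W x) with hf₂
  have hf₂c : Continuous f₂ := by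
    apply hg_cont.comp_continuous (continuous_const.mul (mass_cont ρ W))
    intro x
    exact (mul_pos hlam (mass_pos ρ W x)).le
  have hf₂b : ∀ x, |f₂ x| ≤ G := fun x => hgG _ (mul_pos hlam (mass_pos ρ W x)).le
  -- the cut off
  set f₁ : ℕ → EuclideanSpace ℝ (ZMod W) → ℝ := fun A x => min 1 (max 0 (‖x‖ - A)) with hf₁
  have hf₁c : ∀ A, Continuous (f₁ A) := by
    intro A
    rw [hf₁]
    fun_prop
  have hf₁b : ∀ A x, 0 ≤ f₁ A x ∧ f₁ A x ≤ 1 := by
    intro A x
    refine ⟨le_min zero_le_one (le_max_left _ _), min_le_left _ _⟩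
  set N := multivariateGaussian (0 : EuclideanSpace ℝ (ZMod W)) (cov W) with hN
  have hlim : Tendsto (fun A : ℕ => ∫ x, f₁ A x ∂N) atTop (𝓝 0) := by
    have h0 : (0 : ℝ) = ∫ _x : EuclideanSpace ℝ (ZMod W), (0 : ℝ) ∂N := by simp
    rw [h0]
    apply tendsto_integral_of_dominated_convergence (fun _ => 1)
    · intro A; exact (hf₁c A).aestronglyMeasurable
    · exact integrable_const 1
    · intro A
      refine Eventually.of_forall fun x => ?_
      rw [Real.norm_eq_abs, abs_of_nonneg (hf₁b A x).1]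
      exact (hf₁b A x).2
    · refine Eventually.of_forall fun x => ?_
      apply tendsto_const_nhds.congr'
      filter_upwards [tendsto_natCast_atTop_atTop.eventually_ge_atTop (‖x‖ : ℝ)] with A hA
      rw [hf₁]
      simp only
      rw [max_eq_left (by linarith), min_eq_right zero_le_one]
  obtain ⟨A, hA⟩ := ((tendsto_order.1 hlim).2 (ε / (8 * (G + 1))) (by positivity)).exists
  obtain ⟨η₁, hη₁, H1⟩ := h2 W (f₁ A) (hf₁c A) ⟨1, fun x => by
    rw [abs_of_nonneg (hf₁b A x).1]; exact (hf₁b A x).2⟩ (ε / (8 * (G + 1))) (by positivity)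
  obtain ⟨η₂, hη₂, H2⟩ := h2 W f₂ hf₂c ⟨G, hf₂b⟩ (ε / 4) (by positivity)
  -- the level
  set A' : ℝ := A + 1 with hA'
  set β := bta W with hβd
  have hβ : 1 ≤ β := bta_one W
  have hlimq : Tendsto (fun η : ℝ => √η) (𝓝[>] 0) (𝓝 0) := by
    have : Tendsto (fun η : ℝ => √η) (𝓝 0) (𝓝 (√0)) := Real.continuous_sqrt.tendsto 0
    rw [Real.sqrt_zero] at this
    exact this.mono_left nhdsWithin_le_nhds
  have ev1 : ∀ (D e : ℝ), 0 < e → ∀ᶠ η : ℝ in 𝓝[>] 0, D * √η < e := by
    intro D e he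
    have : Tendsto (fun η : ℝ => D * √η) (𝓝[>] 0) (𝓝 (D * 0)) := hlimq.const_mul D
    rw [mul_zero] at this
    exact (tendsto_order.1 this).2 e he
  have ev2 : ∀ (e : ℝ), 0 < e → ∀ᶠ η : ℝ in 𝓝[>] 0, η < e := by
    intro e he
    have : Tendsto (fun η : ℝ => η) (𝓝[>] 0) (𝓝 0) := tendsto_id.mono_left nhdsWithin_le_nhds
    exact (tendsto_order.1 this).2 e he
  obtain ⟨η, hη0, hηη₁, hηη₂, hη1, hsm, hsm2, hsm3⟩ :=
    ((eventually_mem_nhdsWithin (a := (0 : ℝ)) (s := Set.Ioi 0)).and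
      ((ev2 η₁ hη₁).and ((ev2 η₂ hη₂).and ((ev2 1 one_pos).and
      ((ev1 ((√ρ + 1) * β) (1 / 8) (by norm_num)).and
      ((ev1 (CC β (√ρ + 1) A') 1 one_pos).and (ev1 (G * DD W ρ lam A') (ε / 4) (by positivity)))))))).exists
  have hη0' : 0 < η := hη0
  refine ⟨η, hη0', ?_⟩
  intro K p V θ u hK hp0 hp1 hpu hu1 hθ hu hs hc
  have hK1 : 1 / η₁ ≤ K := le_trans (one_div_le_one_div_of_le hη0' hηη₁.le) hK
  have hK2 : 1 / η₂ ≤ K := le_trans (one_div_le_one_div_of_le hη0' hηη₂.le) hK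
  have R1 := H1 K p hK1 hp0 hp1 (fun t => (hpu t).trans hηη₁.le)
  have R2 := H2 K p hK2 hp0 hp1 (fun t => (hpu t).trans hηη₂.le)
  -- the integral
  have hint : ∫ x, g (lam * x) ∂(chaos ρ W) = ∫ x, f₂ x ∂N := by
    unfold chaos
    have hm : AEMeasurable (mass ρ W) N := (mass_cont ρ W).aemeasurable
    rw [← hN, integral_map hm]
    have hh : AEStronglyMeasurable (fun x : ℝ => g |lam * x|) (N.map (mass ρ W)) := by
      apply Continuous.aestronglyMeasurable
      have hc1 : Continuous (fun x : ℝ => |lam * x|) := by fun_prop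
      have hc2 : ∀ x : ℝ, |lam * x| ∈ Set.Ici (0 : ℝ) := fun x => abs_nonneg (lam * x)
      exact hg_cont.comp_continuous hc1 hc2
    apply hh.congr
    have hae : ∀ᵐ x ∂(N.map (mass ρ W)), 0 ≤ x := by
      rw [ae_map_iff hm (measurableSet_Ici)]
      exact Eventually.of_forall fun x => (mass_pos ρ W x).le
    filter_upwards [hae] with x hx
    rw [abs_of_nonneg (mul_nonneg hlam.le hx)]
  rw [hint]
  have hprod0 : ∀ t : Fin K → ZMod W, 0 ≤ ∏ i, p (t i) := fun t => Finset.prod_nonneg fun i _ => hp0 _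
  have hprod1 : ∑ t : Fin K → ZMod W, ∏ i, p (t i) = 1 := by
    have := Finset.prod_univ_sum (fun _ : Fin K => (univ : Finset (ZMod W))) (fun _ t => p t)
    rw [Fintype.piFinset_univ] at this
    rw [← this, hp1, Finset.prod_const_one]
  -- pointwise comparison
  have hpt : ∀ t : Fin K → ZMod W, |g (cm V u t) - f₂ (xv W t)| ≤ ε / 4 + 2 * G * f₁ A (xv W t) := by
    intro t
    have hcm0 : 0 ≤ cm V u t := by
      unfold cm
      refine Finset.sum_nonneg fun n hn => Finset.prod_nonneg fun i _ => ?_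
      have := (hu1 n hn (t i)).2
      linarith
    by_cases hbig : ‖xv W t‖ ≤ A'
    · have h3 : ∀ c, |xv W t c| ≤ A' := fun c => by
        have := EuclideanSpace.norm_eq (xv W t)
        have h4 : ‖xv W t c‖ ≤ ‖xv W t‖ := PiLp.norm_apply_le (xv W t) c
        rw [Real.norm_eq_abs] at h4
        exact h4.trans hbig
      have h4 := cm_close W ρ lam A' η hρ hlam hη0' hη1.le hsm.le hsm2.le K V θ u hK hu1 hθ hu hs hc t h3
      have h5 := hgL (cm V u t) (lam * mass ρ W (xv W t)) hcm0 (mul_pos hlam (mass_pos ρ W _)).le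
      have h6 : |g (cm V u t) - f₂ (xv W t)| ≤ G * (DD W ρ lam A' * √η) := h5.trans (by gcongr)
      have h7 : 0 ≤ 2 * G * f₁ A (xv W t) := mul_nonneg (by linarith) (hf₁b A _).1
      have h8 : G * (DD W ρ lam A' * √η) = G * DD W ρ lam A' * √η := by ring
      linarith
    · push Not at hbig
      have h3a : (1 : ℝ) ≤ ‖xv W t‖ - A := by
        rw [hA'] at hbig
        linarith
      have h3 : f₁ A (xv W t) = 1 := by
        change min 1 (max 0 (‖xv W t‖ - (A : ℝ))) = 1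
        rw [max_eq_right (by linarith), min_eq_left (by linarith)]
      rw [h3]
      have h4 := abs_le.1 (hgG (cm V u t) hcm0)
      have h5 := abs_le.1 (hf₂b (xv W t))
      rw [abs_le]
      constructor <;> linarith
  have hsum : |∑ t : Fin K → ZMod W, (∏ i, p (t i)) * g (cm V u t) -
      ∑ t : Fin K → ZMod W, (∏ i, p (t i)) * f₂ (xv W t)| ≤
      ε / 4 + 2 * G * ∑ t : Fin K → ZMod W, (∏ i, p (t i)) * f₁ A (xv W t) := by
    rw [← Finset.sum_sub_distrib]
    refine (Finset.abs_sum_le_sum_abs _ _).trans ?_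
    have h3 : ∀ t ∈ (univ : Finset (Fin K → ZMod W)),
        |(∏ i, p (t i)) * g (cm V u t) - (∏ i, p (t i)) * f₂ (xv W t)| ≤
        (∏ i, p (t i)) * (ε / 4) + 2 * G * ((∏ i, p (t i)) * f₁ A (xv W t)) := by
      intro t _
      rw [← mul_sub, abs_mul, abs_of_nonneg (hprod0 t)]
      have := mul_le_mul_of_nonneg_left (hpt t) (hprod0 t)
      linarith
    refine (Finset.sum_le_sum h3).trans (le_of_eq ?_)
    rw [Finset.sum_add_distrib, ← Finset.sum_mul, hprod1, ← Finset.mul_sum, one_mul]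
  have hf1s : ∑ t : Fin K → ZMod W, (∏ i, p (t i)) * f₁ A (xv W t) ≤ ε / (4 * (G + 1)) := by
    have h3 := (abs_le.1 R1).2
    have h4 : ε / (4 * (G + 1)) = ε / (8 * (G + 1)) + ε / (8 * (G + 1)) := by
      field_simp
      ring
    rw [h4]
    linarith
  have hG2 : 2 * G * ∑ t : Fin K → ZMod W, (∏ i, p (t i)) * f₁ A (xv W t) ≤ ε / 2 := by
    calc _ ≤ 2 * G * (ε / (4 * (G + 1))) := by gcongr
      _ = ε / 2 * (G / (G + 1)) := by field_simp; ring
      _ ≤ ε / 2 * 1 := by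
        gcongr
        rw [div_le_one (by linarith)]
        linarith
      _ = ε / 2 := mul_one _
  have hfin := abs_le.1 R2
  have hfin2 := abs_le.1 hsum
  rw [abs_le]
  constructor <;> linarith [hfin.1, hfin.2, hfin2.1, hfin2.2]

end Pool.Agent.Q121.GC
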