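import Mathlib
import Pool.Agent.Q145.GC.Spec
import Pool.Agent.H373R2.T7.Crt

/-! Project GC of helper145: the second moments are bounded. -/

set_option autoImplicit false

namespace Pool.Agent.Q121.GC

open Finset Pool.Agent.Q145.GC

lemma sum_zmod_range (W : ℕ) [NeZero W] (F : ZMod W → ℝ) :
    ∑ h : ZMod W, F h = ∑ k ∈ range W, F (k : ZMod W) := by
  refine Finset.sum_nbij' ZMod.val (fun k => (k : ZMod W)) ?_ ?_ ?_ ?_ ?_
  · intro a _; exact mem_range.2 (ZMod.val_lt a)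
  · intro a _; exact mem_univ _
  · intro a _; exact ZMod.natCast_zmod_val a
  · intro a ha; exact ZMod.val_cast_of_lt (mem_range.1 ha)
  · intro a _; rw [ZMod.natCast_zmod_val]

lemma sum_zmod_Icc (W : ℕ) [NeZero W] (F : ZMod W → ℝ) :
    ∑ h : ZMod W, F h = ∑ k ∈ Icc 1 W, F (k : ZMod W) := by
  have hW : 0 < W := Nat.pos_of_ne_zero (NeZero.ne W)
  rw [sum_zmod_range]
  obtain ⟨G, hG⟩ : ∃ G : ℕ → ℝ, ∀ k : ℕ, G k = F (k : ZMod W) := ⟨fun k => F (k : ZMod W), fun _ => rfl⟩
  simp only [← hG]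
  have h1 : ∑ k ∈ Icc 1 W, G k = ∑ k ∈ Finset.range W, G (k + 1) := by
    rw [Finset.range_eq_Ico, Finset.sum_Ico_add' G 0 W 1]
    rfl
  rw [h1]
  have h2 := Finset.sum_range_succ G W
  have h3 := Finset.sum_range_succ' G W
  rw [h2] at h3
  have h4 : G W = G 0 := by
    rw [hG, hG, ZMod.natCast_self, Nat.cast_zero]
  linarith

/-- the primes up to `w` -/
def Pr (w : ℕ) : Finset ℕ := (range (w + 1)).filter Nat.Prime

lemma prm (w p : ℕ) (hp : p ∈ Pr w) : p.Prime := (mem_filter.1 hp).2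

lemma primorial_eq (w : ℕ) : primorial w = ∏ p ∈ Pr w, p := rfl

lemma isUnit_iff (w n : ℕ) : IsUnit (n : ZMod (primorial w)) ↔ ∀ p ∈ Pr w, n % p ≠ 0 := by
  rw [ZMod.isUnit_iff_coprime, primorial_eq, Nat.coprime_prod_right_iff]
  refine forall₂_congr fun p hp => ?_
  rw [Nat.coprime_comm, (prm w p hp).coprime_iff_not_dvd, Nat.dvd_iff_mod_eq_zero]

lemma cnt (w k : ℕ) : ∑ t : ZMod (primorial w), un (0 + t) * un ((k : ZMod (primorial w)) + t) =
    ((∏ p ∈ Pr w, ((range p).filter (fun a => a % p ≠ 0 ∧ (k + a) % p ≠ 0)).card : ℕ) : ℝ) := by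
  rw [← H373R2.T7.crt_card (fun p a => a % p ≠ 0 ∧ (k + a) % p ≠ 0) (Pr w) (prm w),
    sum_zmod_range, Finset.card_filter, Nat.cast_sum, primorial_eq]
  refine Finset.sum_congr rfl fun t _ => ?_
  unfold un
  have h1 : ((0 : ZMod (primorial w)) + (t : ZMod (primorial w))) = ((t : ℕ) : ZMod (primorial w)) := zero_add _
  have h2 : ((k : ZMod (primorial w)) + (t : ZMod (primorial w))) = ((k + t : ℕ) : ZMod (primorial w)) := by
    push_cast; rfl
  have e1 := isUnit_iff w t
  have e2 := isUnit_iff w (k + t)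
  rw [← h1] at e1
  rw [← h2] at e2
  rw [primorial_eq] at e1 e2
  have e3 : (∀ p ∈ Pr w, (t % p) % p ≠ 0 ∧ (k + t % p) % p ≠ 0) ↔
      ((∀ p ∈ Pr w, t % p ≠ 0) ∧ (∀ p ∈ Pr w, (k + t) % p ≠ 0)) := by
    constructor
    · intro h
      refine ⟨fun p hp => ?_, fun p hp => ?_⟩
      · have := (h p hp).1
        rwa [Nat.mod_mod] at this
      · have := (h p hp).2
        rwa [Nat.add_mod_mod] at this
    · rintro ⟨h, h'⟩ p hp
      rw [Nat.mod_mod, Nat.add_mod_mod]
      exact ⟨h p hp, h' p hp⟩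
  by_cases a1 : ∀ p ∈ Pr w, t % p ≠ 0
  · by_cases a2 : ∀ p ∈ Pr w, (k + t) % p ≠ 0
    · rw [if_pos (e1.2 a1), if_pos (e2.2 a2), if_pos (e3.2 ⟨a1, a2⟩)]
      norm_num
    · rw [if_neg (fun h => a2 (e2.1 h)), if_neg (fun h => a2 (e3.1 h).2)]
      norm_num
  · rw [if_neg (fun h => a1 (e1.1 h)), if_neg (fun h => a1 (e3.1 h).1)]
    norm_num

lemma cnt_p (p k : ℕ) (hp : p.Prime) :
    (((range p).filter (fun a => a % p ≠ 0 ∧ (k + a) % p ≠ 0)).card : ℝ) ≤
      if p ∣ k then (p : ℝ) - 1 else (p : ℝ) - 2 := by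
  have hp0 := hp.pos
  have hp2 := hp.two_le
  split_ifs with h
  · have h1 : ((range p).filter (fun a => a % p ≠ 0 ∧ (k + a) % p ≠ 0)) ⊆ (range p).erase 0 := by
      intro a ha
      rw [mem_filter] at ha
      rw [mem_erase]
      refine ⟨?_, ha.1⟩
      rintro rfl
      exact ha.2.1 (Nat.zero_mod _)
    have h2 := card_le_card h1
    rw [card_erase_of_mem (mem_range.2 hp0), card_range] at h2
    have h3 : ((range p).filter (fun a => a % p ≠ 0 ∧ (k + a) % p ≠ 0)).card + 1 ≤ p := by omega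
    have h4 : ((((range p).filter (fun a => a % p ≠ 0 ∧ (k + a) % p ≠ 0)).card : ℝ)) + 1 ≤ p := by
      exact_mod_cast h3
    linarith
  · have hk : k % p ≠ 0 := fun h0 => h (Nat.dvd_of_mod_eq_zero h0)
    have hkl : k % p < p := Nat.mod_lt _ hp0
    have h1 : ((range p).filter (fun a => a % p ≠ 0 ∧ (k + a) % p ≠ 0)) ⊆
        ((range p).erase 0).erase (p - k % p) := by
      intro a ha
      rw [mem_filter] at ha
      rw [mem_erase, mem_erase]
      refine ⟨?_, ?_, ha.1⟩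
      · intro he
        apply ha.2.2
        rw [he, ← Nat.mod_add_mod]
        have : k % p + (p - k % p) = p := by omega
        rw [this, Nat.mod_self]
      · rintro rfl
        exact ha.2.1 (Nat.zero_mod _)
    have h2 := card_le_card h1
    rw [card_erase_of_mem, card_erase_of_mem (mem_range.2 hp0), card_range] at h2
    · have h3 : ((range p).filter (fun a => a % p ≠ 0 ∧ (k + a) % p ≠ 0)).card + 2 ≤ p := by omega
      have h4 : ((((range p).filter (fun a => a % p ≠ 0 ∧ (k + a) % p ≠ 0)).card : ℝ)) + 2 ≤ p := by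
        exact_mod_cast h3
      linarith
    · rw [mem_erase, mem_range]
      omega

lemma ratio (k : ℕ) (hk : 1 ≤ k) : (k : ℝ) / Nat.totient k = ∏ p ∈ k.primeFactors, ((p : ℝ) / (p - 1)) := by
  have h := Nat.totient_eq_mul_prod_factors k
  have h' : (Nat.totient k : ℝ) = k * ∏ p ∈ k.primeFactors, (1 - (p : ℝ)⁻¹) := by
    have h2 := congrArg (fun x : ℚ => (x : ℝ)) h
    push_cast at h2
    exact h2
  have hk' : (k : ℝ) ≠ 0 := by
    have : 0 < k := hk
    positivity
  rw [h', div_mul_eq_div_div, div_self hk', one_div, ← Finset.prod_inv_distrib]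
  refine Finset.prod_congr rfl fun p hp => ?_
  have hpp := Nat.prime_of_mem_primeFactors hp
  have h1 : (1 : ℝ) < p := by exact_mod_cast hpp.one_lt
  have h2 : (p : ℝ) - 1 ≠ 0 := by linarith
  have h3 : (p : ℝ) ≠ 0 := by linarith
  have h4 : 1 - (p : ℝ)⁻¹ = ((p : ℝ) - 1) / p := by field_simp
  rw [h4, inv_div]

lemma cov_le (w k : ℕ) (hk : 1 ≤ k) :
    cov (primorial w) 0 (k : ZMod (primorial w)) + 1 ≤ (k : ℝ) / Nat.totient k := by
  have e1 : cov (primorial w) 0 (k : ZMod (primorial w)) + 1 =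
      bta (primorial w) ^ 2 * (∑ t : ZMod (primorial w), un (0 + t) * un ((k : ZMod (primorial w)) + t)) / (primorial w : ℕ) := by
    unfold cov
    ring
  rw [e1, cnt, ratio k hk]
  have hpos : ∀ p ∈ Pr w, (1 : ℝ) < p := fun p hp => by exact_mod_cast (prm w p hp).one_lt
  have hb : bta (primorial w) = ∏ p ∈ Pr w, ((p : ℝ) / (p - 1)) := by
    unfold bta
    rw [primorial_eq, H373R2.T7.totient_prod (Pr w) (prm w), Finset.prod_div_distrib]
    push_cast
    congr 1
    refine Finset.prod_congr rfl fun p hp => ?_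
    rw [Nat.cast_sub (prm w p hp).one_lt.le, Nat.cast_one]
  rw [hb, primorial_eq, ← Finset.prod_pow]
  push_cast
  rw [← Finset.prod_mul_distrib, ← Finset.prod_div_distrib]
  have h1 : ∏ p ∈ Pr w, (((p : ℝ) / (p - 1)) ^ 2 *
      (((range p).filter (fun a => a % p ≠ 0 ∧ (k + a) % p ≠ 0)).card : ℝ) / p) ≤
      ∏ p ∈ Pr w, (if p ∣ k then ((p : ℝ) / (p - 1)) else 1) := by
    refine Finset.prod_le_prod (fun p hp => by have := hpos p hp; positivity) fun p hp => ?_
    have h2 := cnt_p p k (prm w p hp)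
    have h3 := hpos p hp
    have h4 : (0 : ℝ) < (p : ℝ) - 1 := by linarith
    have h5 : (0 : ℝ) < (p : ℝ) := by linarith
    split_ifs with h
    · rw [if_pos h] at h2
      calc _ ≤ ((p : ℝ) / (p - 1)) ^ 2 * ((p : ℝ) - 1) / p := by gcongr
        _ = _ := by field_simp
    · rw [if_neg h] at h2
      calc _ ≤ ((p : ℝ) / (p - 1)) ^ 2 * ((p : ℝ) - 2) / p := by gcongr
        _ = ((p : ℝ) * (p - 2)) / ((p - 1) ^ 2) := by field_simp
        _ ≤ 1 := by
          rw [div_le_one (by positivity)]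
          nlinarith
  refine h1.trans ?_
  rw [← Finset.prod_filter]
  have hsub : (Pr w).filter (fun p => p ∣ k) ⊆ k.primeFactors := by
    intro p hp
    rw [mem_filter] at hp
    rw [Nat.mem_primeFactors]
    exact ⟨prm w p hp.1, hp.2, by omega⟩
  have hone : ∀ p ∈ k.primeFactors, (1 : ℝ) ≤ (p : ℝ) / (p - 1) := by
    intro p hp
    have hpp := Nat.prime_of_mem_primeFactors hp
    have h1 : (1 : ℝ) < p := by exact_mod_cast hpp.one_lt
    rw [le_div_iff₀ (by linarith)]
    linarith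
  rw [← Finset.prod_sdiff hsub]
  refine le_mul_of_one_le_left (Finset.prod_nonneg fun p hp => ?_) ?_
  · exact zero_le_one.trans (hone p (hsub hp))
  · have h2 : ∏ _p ∈ k.primeFactors \ (Pr w).filter (fun p => p ∣ k), (1 : ℝ) ≤
        ∏ p ∈ k.primeFactors \ (Pr w).filter (fun p => p ∣ k), ((p : ℝ) / (p - 1)) :=
      Finset.prod_le_prod (fun _ _ => zero_le_one) fun p hp => hone p (mem_sdiff.1 hp).1
    rwa [Finset.prod_const_one] at h2

theorem bdd (h1 : S_Em) : S_Bdd := by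
  intro ρ hρ
  obtain ⟨C, hC⟩ := h1 ρ
  refine ⟨C, fun w => ?_⟩
  have hW : 0 < primorial w := primorial_pos w
  have hW' : (0 : ℝ) < (primorial w : ℕ) := by exact_mod_cast hW
  unfold vv
  rw [div_le_iff₀ hW', sum_zmod_Icc]
  refine le_trans (Finset.sum_le_sum fun k hk => ?_) (hC (primorial w))
  rw [mem_Icc] at hk
  apply Real.exp_le_exp.2
  apply mul_le_mul_of_nonneg_left _ hρ
  have := cov_le w k hk.1
  linarith

end Pool.Agent.Q121.GC
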